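import Pool.Agent.H306R2.RZ.Defs4
import Pool.Agent.H66R2.RZ_P4

set_option autoImplicit false

/-! Project RZ, task HT: the functional equation of the theta function of `(·/q)`. -/

namespace Pool.Agent.H268R2.RZHT

open Finset Filter Topology MeasureTheory Pool.Agent.H306R2.RZ

noncomputable section

theorem hs_congr {ι : Type} {f g : ι → ℝ} {a : ℝ} (h : ∀ x, f x = g x) (hf : HasSum f a) :
    HasSum g a := by
  have := funext h
  rwa [← this]

theorem Gk_all (k : ℤ) (n : ℕ) (hn : Odd n) (hs : Squarefree n) :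
    Gk k n = js k n * Real.sqrt n := by
  by_cases hc : n.Coprime k.natAbs
  · rw [Pool.Agent.H66R2.RZP4.P4b k n hn hc, if_pos hs]
  · obtain ⟨p, hp, hpn, hpk⟩ := Nat.Prime.not_coprime_iff_dvd.mp hc
    obtain ⟨m, rfl⟩ := hpn
    have hpm : p.Coprime m := Nat.coprime_of_squarefree_mul hs
    obtain ⟨hp2, hm⟩ := Pool.Agent.H66R2.RZP4.odd_factors hn
    obtain ⟨t, ht⟩ : (p : ℤ) ∣ k := Int.natCast_dvd.mpr hpk
    have h1 : Gk k p = 0 := by
      have := Pool.Agent.H66R2.RZP4.Gk_add 0 t p
      rw [zero_add, ← ht] at this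
      rw [this, Pool.Agent.H66R2.RZP4.P4a p hp2, if_neg]
      exact hp.prime.not_isSquare
    have h2 : js k (p * m) = 0 := by
      unfold js
      have : NeZero (p * m) := ⟨hn.pos.ne'⟩
      have : jacobiSym k (p * m) = 0 := by
        rw [jacobiSym.eq_zero_iff_not_coprime]
        intro h
        apply hc
        have h' : k.natAbs.gcd (p * m) = 1 := by
          have h2 := h
          unfold Int.gcd at h2
          rwa [Int.natAbs_natCast] at h2
        rw [Nat.Coprime, Nat.gcd_comm]
        exact h'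
      rw [this]; simp
    rw [Pool.Agent.H987R2.RZ.P2 k p m hp2 hm hpm, h1, h2]
    simp

theorem sum_cos (h : ℤ) (q : ℕ) (hq : Odd q) (hs : Squarefree q) (h4 : q % 4 = 1) :
    ∑ r ∈ range q, js r q * Real.cos (2 * Real.pi * (h : ℝ) * (r : ℝ) / (q : ℝ)) =
      js h q * Real.sqrt q := by
  have h1 := Gk_all h q hq hs
  have h2 := Gk_all (-h) q hq hs
  have h3 : js (-h) q = js h q := by
    unfold js
    congr 1
    rw [jacobiSym.neg h hq, ZMod.χ₄_nat_one_mod_four h4, one_mul]
  rw [h3] at h2
  have h4 : Gk h q + Gk (-h) q =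
      2 * ∑ r ∈ range q, js r q * Real.cos (2 * Real.pi * (h : ℝ) * (r : ℝ) / (q : ℝ)) := by
    unfold Gk
    rw [← Finset.sum_add_distrib, Finset.mul_sum]
    refine Finset.sum_congr rfl fun r _ => ?_
    unfold cas
    have e : 2 * Real.pi * ((-h : ℤ) : ℝ) * (r : ℝ) / (q : ℝ) =
        -(2 * Real.pi * (h : ℝ) * (r : ℝ) / (q : ℝ)) := by
      push_cast; ring
    rw [e, Real.cos_neg, Real.sin_neg]
    ring
  linarith

/-- theta function of a real even primitive character -/
theorem HT (q : ℕ) (hq : Odd q) (hs : Squarefree q) (h4 : q % 4 = 1) (y : ℝ) (hy : 0 < y) :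
    ∑' m : ℤ, Real.exp (-(Real.pi * (m : ℝ) ^ 2 * y ^ 2)) * js m q =
      1 / (y * Real.sqrt q) * ∑' h : ℤ, Real.exp (-(Real.pi * (h : ℝ) ^ 2 / ((q : ℝ) ^ 2 * y ^ 2))) *
        js h q := by
  have hq0 : 0 < q := hq.pos
  have hqr : (0:ℝ) < q := by exact_mod_cast hq0
  set t : ℝ := (q * y) ^ 2 with ht
  have ht0 : 0 < t := by positivity
  have ht1 : 0 < 1 / t := by positivity
  have hsq : t ^ (1 / 2 : ℝ) = q * y := by
    rw [ht, ← Real.sqrt_eq_rpow, Real.sqrt_sq (by positivity)]
  -- the left side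
  have hL : HasSum (fun m : ℤ => Real.exp (-(Real.pi * (m : ℝ) ^ 2 * y ^ 2)) * js m q)
      (∑ r ∈ range q, js r q *
        HurwitzZeta.evenKernel (((r : ℝ) / q : ℝ) : UnitAddCircle) t) := by
    have hr : ∀ r ∈ range q, HasSum (fun m : ℤ => if m % q = (r : ℤ) then
        Real.exp (-(Real.pi * (m : ℝ) ^ 2 * y ^ 2)) * js m q else 0)
        (js r q * HurwitzZeta.evenKernel (((r : ℝ) / q : ℝ) : UnitAddCircle) t) := by
      intro r hr
      rw [mem_range] at hr
      have hinj : Function.Injective (fun n : ℤ => (q : ℤ) * n + r) := by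
        intro a b hab
        simp only at hab
        have hqz : (q : ℤ) ≠ 0 := by exact_mod_cast hq0.ne'
        exact mul_left_cancel₀ hqz (add_right_cancel hab)
      rw [← Function.Injective.hasSum_iff hinj]
      · have h1 := (HurwitzZeta.hasSum_int_evenKernel ((r : ℝ) / q) ht0).mul_left (js r q)
        refine hs_congr ?_ h1
        intro n
        simp only [Function.comp_apply]
        have e1 : ((q : ℤ) * n + r) % q = (r : ℤ) := by
          rw [Int.mul_add_emod_self_left]
          exact Int.emod_eq_of_lt (by omega) (by exact_mod_cast hr)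
        rw [if_pos e1, mul_comm]
        congr 1
        · congr 1
          rw [ht]
          push_cast
          field_simp
        · unfold js
          congr 1
          rw [jacobiSym.mod_left ((q : ℤ) * n + r), e1]
      · intro m hm
        rw [if_neg]
        intro hmr
        apply hm
        refine ⟨m / q, ?_⟩
        simp only
        rw [← hmr]
        exact Int.mul_ediv_add_emod m q
    have hsum := hasSum_sum hr
    refine hs_congr ?_ hsum
    intro m
    have hm0 : 0 ≤ m % q := Int.emod_nonneg _ (by exact_mod_cast hq0.ne')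
    have hm1 : m % q < q := Int.emod_lt_of_pos _ (by exact_mod_cast hq0)
    rw [Finset.sum_eq_single (m % q).toNat]
    · rw [if_pos (by rw [Int.toNat_of_nonneg hm0])]
    · intro r _ hne
      rw [if_neg]
      intro h
      apply hne
      rw [h]
      simp
    · intro h
      exfalso
      apply h
      rw [mem_range]
      omega
  -- the right side
  have hR : HasSum (fun h : ℤ => Real.exp (-(Real.pi * (h : ℝ) ^ 2 / ((q : ℝ) ^ 2 * y ^ 2))) *
      js h q * Real.sqrt q)
      (∑ r ∈ range q, js r q *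
        HurwitzZeta.cosKernel (((r : ℝ) / q : ℝ) : UnitAddCircle) (1 / t)) := by
    have hr : ∀ r ∈ range q, HasSum (fun h : ℤ => js r q *
        (Real.cos (2 * Real.pi * (h : ℝ) * (r : ℝ) / (q : ℝ)) *
        Real.exp (-(Real.pi * (h : ℝ) ^ 2 / ((q : ℝ) ^ 2 * y ^ 2)))))
        (js r q * HurwitzZeta.cosKernel (((r : ℝ) / q : ℝ) : UnitAddCircle) (1 / t)) := by
      intro r _
      refine HasSum.mul_left _ ?_
      have h1 := Complex.hasSum_re (HurwitzZeta.hasSum_int_cosKernel ((r : ℝ) / q) ht1)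
      rw [Complex.ofReal_re] at h1
      refine hs_congr ?_ h1
      intro h
      rw [Complex.re_mul_ofReal]
      congr 1
      · have e : 2 * (Real.pi : ℂ) * Complex.I * (((r : ℝ) / q : ℝ) : ℂ) * (h : ℂ) =
            ((2 * Real.pi * (h : ℝ) * (r : ℝ) / (q : ℝ) : ℝ) : ℂ) * Complex.I := by
          push_cast; ring
        rw [e, Complex.exp_ofReal_mul_I_re]
      · congr 1
        rw [ht]
        field_simp
    have hsum := hasSum_sum hr
    refine hs_congr ?_ hsum
    intro h
    have h5 := sum_cos h q hq hs h4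
    have h6 : Real.exp (-(Real.pi * (h : ℝ) ^ 2 / ((q : ℝ) ^ 2 * y ^ 2))) * js h q * Real.sqrt q =
        Real.exp (-(Real.pi * (h : ℝ) ^ 2 / ((q : ℝ) ^ 2 * y ^ 2))) * (js h q * Real.sqrt q) := by
      ring
    rw [h6, ← h5, Finset.mul_sum]
    refine Finset.sum_congr rfl fun r _ => ?_
    ring
  rw [hL.tsum_eq]
  have hR' := hR.tsum_eq
  rw [tsum_mul_right] at hR'
  have hE : ∀ r ∈ range q, js r q * HurwitzZeta.evenKernel (((r : ℝ) / q : ℝ) : UnitAddCircle) t =
      1 / (q * y) * (js r q *
        HurwitzZeta.cosKernel (((r : ℝ) / q : ℝ) : UnitAddCircle) (1 / t)) := by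
    intro r _
    rw [HurwitzZeta.evenKernel_functional_equation, hsq]
    ring
  rw [Finset.sum_congr rfl hE, ← Finset.mul_sum, ← hR']
  have hsqrt : Real.sqrt q * Real.sqrt q = q := Real.mul_self_sqrt hqr.le
  have hs0 : 0 < Real.sqrt q := Real.sqrt_pos.mpr hqr
  field_simp
  rw [Real.sq_sqrt hqr.le]
  ring

end

end Pool.Agent.H268R2.RZHT
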